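import Mathlib
import Pool.Agent.Helper91.SY.Goals

/-!
Packet SY-HP (project of helper91, MP_126465_gt): positivity of the quotient `h` of the moment map by
`p² + q²`.
-/

set_option autoImplicit false

open Set Filter Topology
open scoped ContDiff
open Pool.Agent.Helper91.SY

namespace Pool.Agent.Helper34.SY

theorem pos_of_mul_pos_left' {s t : ℝ} (h1 : 0 < s * t) (h2 : 0 ≤ s) : 0 < t := by
  by_contra hcon
  push Not at hcon
  have := mul_nonpos_of_nonneg_of_nonpos h2 hcon
  linarith

theorem hp_ : StmtHP := by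
  intro E _ _ _ B a b p q H h hS hP hR hH hh hdH hHh hpos hdd x
  by_cases hx : p x = 0 ∧ q x = 0
  swap
  · have hne : p x ≠ 0 ∨ q x ≠ 0 := by
      by_contra hcon
      push Not at hcon
      exact hx hcon
    have h1 := hpos x hne
    rw [hHh x] at h1
    have h2 : 0 ≤ p x ^ 2 + q x ^ 2 := by positivity
    exact pos_of_mul_pos_left' h1 h2
  obtain ⟨hp, hq⟩ := hx
  -- nonnegativity by continuity
  have hnn : 0 ≤ h x := by
    have hcont : Continuous (fun s : ℝ => h (x + s • a)) :=
      hh.continuous.comp (continuous_const.add (continuous_id.smul continuous_const))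
    have ht : Tendsto (fun s : ℝ => h (x + s • a)) (𝓝[≠] 0) (𝓝 (h (x + (0 : ℝ) • a))) :=
      (hcont.tendsto 0).mono_left nhdsWithin_le_nhds
    rw [zero_smul, add_zero] at ht
    refine ge_of_tendsto ht ?_
    filter_upwards [self_mem_nhdsWithin] with s hs
    have hs' : s ≠ 0 := hs
    have hps : p (x + s • a) = s := by
      rw [map_add, map_smul, hp, hP.pa]; simp
    have h1 := hpos (x + s • a) (Or.inl (by rw [hps]; exact hs'))
    rw [hHh (x + s • a)] at h1
    have h2 : 0 ≤ p (x + s • a) ^ 2 + q (x + s • a) ^ 2 := by positivity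
    exact (pos_of_mul_pos_left' h1 h2).le
  rcases hnn.lt_or_eq with hlt | heq
  · exact hlt
  exfalso
  -- the second derivative
  have hJx : Jr a b p q x = 0 := by
    simp [Jr, hp, hq]
  have hJa : Jr a b p q a = b := by
    simp [Jr, hP.pa, hP.qa]
  have hBd : HasFDerivAt B (fderiv ℝ B x) x :=
    (hS.smooth.differentiable (by simp) x).hasFDerivAt
  have hJd : HasFDerivAt (fun y => Jr a b p q y) (Jr a b p q) x := (Jr a b p q).hasFDerivAt
  have hd1 : HasFDerivAt (fun y => B y (Jr a b p q y)) _ x := hBd.clm_apply hJd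
  have hd2 : HasFDerivAt (fun y => B y (Jr a b p q y) a) _ x :=
    hd1.clm_apply (hasFDerivAt_const a x)
  have hHd : HasFDerivAt (fderiv ℝ H) (fderiv ℝ (fderiv ℝ H) x) x := by
    have : ContDiff ℝ ∞ (fderiv ℝ H) := hH.fderiv_right (by simp)
    exact (this.differentiable (by simp) x).hasFDerivAt
  have hd3 : HasFDerivAt (fun y => fderiv ℝ H y a) _ x :=
    hHd.clm_apply (hasFDerivAt_const a x)
  have hfun : (fun y => fderiv ℝ H y a) = fun y => -(B y (Jr a b p q y) a) := by
    funext y; exact hdH y a
  have hd4 := hd2.neg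
  change HasFDerivAt (fun y => -(B y (Jr a b p q y) a)) _ x at hd4
  rw [← hfun] at hd4
  have huniq := hd3.unique hd4
  have hval := congrArg (fun L : E →L[ℝ] ℝ => L a) huniq
  simp [hJx, hJa] at hval
  have hab : B x b a = 0 := by
    have h1 := hdd x hp hq
    rw [← heq] at h1
    rw [h1] at hval
    linarith
  have hbb : B x b b = 0 := hS.alt x b
  -- rotation by pi
  have hRx : Rot a b p q Real.pi x = x := by
    simp [Rot, hp, hq]
  have hRb : Rot a b p q Real.pi b = -b := by
    simp [Rot, hP.pb, hP.qb]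
    rw [show (-1 - 1 : ℝ) = -2 by norm_num]
    module
  have hker : ∀ w, p w = 0 → q w = 0 → B x b w = 0 := by
    intro w hpw hqw
    have hRw : Rot a b p q Real.pi w = w := by
      simp [Rot, hpw, hqw]
    have h1 := hR Real.pi x b w
    rw [ContinuousLinearMap.fderiv, hRx, hRb, hRw, map_neg, neg_apply] at h1
    linarith
  have hball : ∀ v, B x b v = 0 := by
    intro v
    have hw := hker (v - p v • a - q v • b) (by simp [hP.pa, hP.pb]) (by simp [hP.qa, hP.qb])
    simp only [map_sub, map_smul, hab, hbb, smul_zero, sub_zero] at hw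
    exact hw
  have hb0 := hS.nondeg x b hball
  have := hP.qb
  rw [hb0, map_zero] at this
  exact zero_ne_one this

end Pool.Agent.Helper34.SY
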